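import Mathlib

/-!
Translates of rank four generalized progressions in abelian groups have unbounded VC-dimension.
-/

namespace Pool.Agent.Results.MP_19d06a_co.Unbounded

open Finset

/-- the value in `G` of a formal word: the letter `(i, true)` is `a i`, the letter `(i, false)` is
its inverse -/
def wordVal {G : Type} [Group G] {k : ℕ} (a : Fin k → G) (w : List (Fin k × Bool)) : G :=
  (w.map fun l => if l.2 = true then a l.1 else (a l.1)⁻¹).prod

/-- the generalized progression: values of the words using the letters with index `i` at most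
`N i` times in total, for each `i` -/
def Prog {G : Type} [Group G] {k : ℕ} (a : Fin k → G) (N : Fin k → ℕ) : Set G :=
  {g | ∃ w : List (Fin k × Bool), (∀ i, w.countP (fun l => l.1 = i) ≤ N i) ∧ wordVal a w = g}

/-- the left translates of `A` shatter `Y` -/
def TransShatters {G : Type} [Group G] (A : Set G) (Y : Finset G) : Prop :=
  ∀ B : Set G, B ⊆ (Y : Set G) → ∃ g : G, ((fun x => g * x) '' A) ∩ (Y : Set G) = B

section words
variable {G : Type} [CommGroup G] {k : ℕ}

theorem word_to (a : Fin k → G) (w : List (Fin k × Bool)) :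
    ∃ x : Fin k → ℤ, (∀ i, |x i| ≤ (w.countP (fun l => l.1 = i) : ℕ)) ∧
      wordVal a w = ∏ i, a i ^ x i := by
  induction w with
  | nil => exact ⟨0, by simp, by simp [wordVal]⟩
  | cons l w ih =>
    obtain ⟨x, hx, hv⟩ := ih
    obtain ⟨j, b⟩ := l
    refine ⟨x + Pi.single j (if b = true then 1 else -1), fun i => ?_, ?_⟩
    · rw [List.countP_cons]
      by_cases h : j = i
      · subst h
        have := hx j
        have h2 : |(if b = true then (1 : ℤ) else -1)| = 1 := by split_ifs <;> simp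
        have h3 := abs_add_le (x j) (if b = true then (1 : ℤ) else -1)
        simp only [Pi.add_apply, Pi.single_eq_same, decide_true, if_true]
        push_cast
        linarith
      · have := hx i
        simp only [Pi.add_apply, Pi.single_eq_of_ne (Ne.symm h), add_zero, h, decide_false]
        simpa using this
    · have e : wordVal a ((j, b) :: w) = (if b = true then a j else (a j)⁻¹) * wordVal a w := by
        simp [wordVal]
      rw [e, hv]
      simp only [Pi.add_apply, zpow_add, Finset.prod_mul_distrib]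
      rw [mul_comm]
      congr 1
      rw [Finset.prod_eq_single j]
      · cases b <;> simp
      · intro i _ hi
        simp [Pi.single_eq_of_ne hi]
      · simp

theorem word_of (a : Fin k → G) (x : Fin k → ℤ) (s : Finset (Fin k)) :
    ∃ w : List (Fin k × Bool),
      (∀ i, w.countP (fun l => l.1 = i) = if i ∈ s then (x i).natAbs else 0) ∧
      wordVal a w = ∏ i ∈ s, a i ^ x i := by
  induction s using Finset.induction_on with
  | empty => exact ⟨[], by simp, by simp [wordVal]⟩
  | insert j s hj ih =>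
    obtain ⟨w, hw, hv⟩ := ih
    refine ⟨List.replicate (x j).natAbs (j, decide (0 ≤ x j)) ++ w, fun i => ?_, ?_⟩
    · rw [List.countP_append, hw i, List.countP_replicate]
      by_cases h : j = i
      · subst h
        simp [hj]
      · have h' : i ≠ j := Ne.symm h
        simp [h, h']
    · rw [Finset.prod_insert hj, ← hv]
      simp only [wordVal, List.map_append, List.prod_append, List.map_replicate,
        List.prod_replicate]
      congr 1
      by_cases h : 0 ≤ x j
      · simp only [h, decide_true, if_true]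
        rw [← zpow_natCast, Int.natAbs_of_nonneg h]
      · simp only [h, decide_false]
        rw [if_neg (by simp), inv_pow, ← zpow_natCast, ← zpow_neg, Int.natCast_natAbs,
          abs_of_neg (not_le.mp h), neg_neg]

theorem mem_prog (a : Fin k → G) (N : Fin k → ℕ) (g : G) :
    g ∈ Prog a N ↔ ∃ x : Fin k → ℤ, (∀ i, |x i| ≤ N i) ∧ g = ∏ i, a i ^ x i := by
  constructor
  · rintro ⟨w, hw, rfl⟩
    obtain ⟨x, hx, hv⟩ := word_to a w
    exact ⟨x, fun i => (hx i).trans (by exact_mod_cast hw i), hv⟩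
  · rintro ⟨x, hx, rfl⟩
    obtain ⟨w, hw, hv⟩ := word_of a x Finset.univ
    refine ⟨w, fun i => ?_, hv⟩
    rw [hw i, if_pos (Finset.mem_univ _)]
    have := hx i
    rw [← Int.natCast_natAbs] at this
    exact_mod_cast this

end words

/-- denominators of the continued fraction with all quotients three -/
def f : ℕ → ℤ
  | 0 => 1
  | 1 => 3
  | n + 2 => 3 * f (n + 1) + f n

theorem f_pos_aux (n : ℕ) : 0 < f n ∧ 3 * f n ≤ f (n + 1) := by
  induction n with
  | zero => simp [f]
  | succ n ih =>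
    obtain ⟨h1, h2⟩ := ih
    refine ⟨by linarith, ?_⟩
    show 3 * f (n + 1) ≤ 3 * f (n + 1) + f n
    linarith

theorem f_pos (n : ℕ) : 0 < f n := (f_pos_aux n).1

theorem f_succ (n : ℕ) : 3 * f n ≤ f (n + 1) := (f_pos_aux n).2

/-- sums of the first terms -/
def W (n : ℕ) : ℤ := ∑ l ∈ range n, f l

theorem W_lt (n : ℕ) : 2 * W n < f n := by
  induction n with
  | zero => simp [W, f]
  | succ n ih =>
    have : W (n + 1) = W n + f n := by simp [W, Finset.sum_range_succ]
    have := f_succ n
    linarith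

theorem W_nonneg (n : ℕ) : 0 ≤ W n := Finset.sum_nonneg fun l _ => (f_pos l).le

theorem W_mono {m n : ℕ} (h : m ≤ n) : W m ≤ W n :=
  Finset.sum_le_sum_of_subset_of_nonneg (Finset.range_mono h) fun l _ _ => (f_pos l).le

/-- second coordinates of the lattice vectors -/
def t (J j : ℕ) : ℤ := (-1) ^ j * f (J - j)

theorem t_rec {J j : ℕ} (h : j + 2 ≤ J) : t J (j + 2) = 3 * t J (j + 1) + t J j := by
  obtain ⟨n, rfl⟩ := Nat.exists_eq_add_of_le h
  have e1 : j + 2 + n - (j + 2) = n := by omega
  have e2 : j + 2 + n - (j + 1) = n + 1 := by omega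
  have e3 : j + 2 + n - j = n + 2 := by omega
  simp only [t, e1, e2, e3, f, pow_succ]
  ring

theorem abs_t (J j : ℕ) : |t J j| = f (J - j) := by
  rw [t, abs_mul, abs_pow, abs_neg, abs_one, one_pow, one_mul, abs_of_pos (f_pos _)]

/-- the lattice -/
def L (J : ℕ) : AddSubgroup (ℤ × ℤ) where
  carrier := {v | ∃ a b : ℤ, v.1 = a * f 0 + b * f 1 ∧ v.2 = a * t J 0 + b * t J 1}
  zero_mem' := ⟨0, 0, by simp, by simp⟩
  add_mem' := by
    rintro v w ⟨a, b, h1, h2⟩ ⟨c, d, h3, h4⟩
    exact ⟨a + c, b + d, by simp [h1, h3]; ring, by simp [h2, h4]; ring⟩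
  neg_mem' := by
    rintro v ⟨a, b, h1, h2⟩
    exact ⟨-a, -b, by simp [h1]; ring, by simp [h2]; ring⟩

theorem mem_L {J j : ℕ} (h : j + 1 ≤ J) (v : ℤ × ℤ) :
    v ∈ L J ↔ ∃ a b : ℤ, v.1 = a * f j + b * f (j + 1) ∧ v.2 = a * t J j + b * t J (j + 1) := by
  induction j with
  | zero => rfl
  | succ j ih =>
    rw [ih (by omega)]
    have e1 : f (j + 1 + 1) = 3 * f (j + 1) + f j := rfl
    have e2 : t J (j + 1 + 1) = 3 * t J (j + 1) + t J j := t_rec h
    rw [e1, e2]
    constructor
    · rintro ⟨a, b, h1, h2⟩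
      exact ⟨b - 3 * a, a, by rw [h1]; ring, by rw [h2]; ring⟩
    · rintro ⟨a, b, h1, h2⟩
      exact ⟨b, a + 3 * b, by rw [h1]; ring, by rw [h2]; ring⟩

theorem u_mem {J j : ℕ} (h : j + 1 ≤ J) : (f (j + 1), t J (j + 1)) ∈ L J :=
  (mem_L h _).2 ⟨0, 1, by simp, by simp⟩

theorem best {J j : ℕ} (h : j + 1 ≤ J) (x y : ℤ) (hv : (x, y) ∈ L J) (hx : |x| < f (j + 1)) :
    y = 0 ∨ f (J - j) ≤ |y| := by
  obtain ⟨a, b, h1, h2⟩ := (mem_L h _).1 hv
  simp only at h1 h2
  have p0 := f_pos j
  have p1 := f_pos (j + 1)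
  have q0 := f_pos (J - j)
  have q1 := f_pos (J - (j + 1))
  have e : |y| = |a * f (J - j) - b * f (J - (j + 1))| := by
    have : y = (-1) ^ j * (a * f (J - j) - b * f (J - (j + 1))) := by
      rw [h2, t, t, pow_succ]; ring
    rw [this, abs_mul, abs_pow, abs_neg, abs_one, one_pow, one_mul]
  rw [abs_lt] at hx
  rcases lt_trichotomy a 0 with ha | ha | ha
  · right
    have hb : 0 ≤ b := by
      by_contra hb
      have hb' : b ≤ -1 := by omega
      nlinarith
    rw [e, le_abs]
    right
    nlinarith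
  · left
    subst ha
    have hb : b = 0 := by
      rcases lt_trichotomy b 0 with hb | hb | hb
      · have hb' : b ≤ -1 := by omega
        nlinarith
      · exact hb
      · have hb' : 1 ≤ b := by omega
        nlinarith
    rw [h2, hb]; simp
  · right
    have hb : b ≤ 0 := by
      by_contra hb
      have hb' : 1 ≤ b := by omega
      nlinarith
    rw [e, le_abs]
    left
    nlinarith

theorem key (j n : ℕ) (b : ℕ → ℤ) (hb : ∀ l, b l = 0 ∨ b l = 1) :
    (∃ x h : ℤ, |x| ≤ W (j + 1) ∧ |h| ≤ W n ∧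
      (∑ l ∈ range (j + 1 + n + 1), b l * f l - x, -h) ∈ L (j + 1 + n)) ↔ b (j + 1) = 0 := by
  set J := j + 1 + n with hJ
  have hsplit : ∑ l ∈ range (J + 1), b l * f l = ∑ l ∈ range (j + 1), b l * f l
      + b (j + 1) * f (j + 1) + ∑ r ∈ range n, b (j + 1 + 1 + r) * f (j + 1 + 1 + r) := by
    have : J + 1 = (j + 1 + 1) + n := by omega
    rw [this, Finset.sum_range_add, Finset.sum_range_succ _ (j + 1)]
  set lo := ∑ l ∈ range (j + 1), b l * f l with hlo
  set hiX := ∑ r ∈ range n, b (j + 1 + 1 + r) * f (j + 1 + 1 + r) with hhiX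
  set hiT := ∑ r ∈ range n, b (j + 1 + 1 + r) * t J (j + 1 + 1 + r) with hhiT
  have hlo0 : 0 ≤ lo := Finset.sum_nonneg fun l _ => by
    rcases hb l with h | h <;> simp [h, (f_pos l).le]
  have hlo1 : lo ≤ W (j + 1) := Finset.sum_le_sum fun l _ => by
    rcases hb l with h | h <;> simp [h, (f_pos l).le]
  have hT : |hiT| ≤ W n := by
    refine (Finset.abs_sum_le_sum_abs _ _).trans ?_
    rw [W, ← Finset.sum_range_reflect]
    refine Finset.sum_le_sum fun r hr => ?_
    have hr' := Finset.mem_range.mp hr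
    have e : J - (j + 1 + 1 + (n - 1 - r)) = r := by omega
    rw [abs_mul, abs_t, e]
    rcases hb (j + 1 + 1 + (n - 1 - r)) with h | h <;> simp [h, (f_pos r).le]
  have hmem : (hiX, hiT) ∈ L J := by
    have : (hiX, hiT) = ∑ r ∈ range n,
        b (j + 1 + 1 + r) • (f (j + 1 + r + 1), t J (j + 1 + r + 1)) := by
      ext
      · simp only [Prod.fst_sum, Prod.smul_fst, smul_eq_mul, hhiX]
        exact Finset.sum_congr rfl fun r _ => by congr 2; omega
      · simp only [Prod.snd_sum, Prod.smul_snd, smul_eq_mul, hhiT]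
        exact Finset.sum_congr rfl fun r _ => by congr 2; omega
    rw [this]
    refine AddSubgroup.sum_mem _ fun r hr => AddSubgroup.zsmul_mem _ (u_mem ?_) _
    have hr' := Finset.mem_range.mp hr
    omega
  rw [hsplit]
  constructor
  · rintro ⟨x, h, hx, hh, hv⟩
    rcases hb (j + 1) with h0 | h1
    · exact h0
    exfalso
    have hu : (f (j + 1), t J (j + 1)) ∈ L J := u_mem (by omega)
    have hw := (L J).sub_mem ((L J).sub_mem hv hmem) hu
    rw [h1] at hw
    have e : (lo + 1 * f (j + 1) + hiX - x, -h) - (hiX, hiT) - (f (j + 1), t J (j + 1))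
        = (lo - x, -h - hiT - t J (j + 1)) := by
      ext
      · simp; ring
      · simp
    rw [e] at hw
    have w1 := W_lt (j + 1)
    have w2 := W_lt n
    have hx' := abs_le.mp hx
    have hh' := abs_le.mp hh
    have hT' := abs_le.mp hT
    have ht := abs_t J (j + 1)
    have e1 : J - (j + 1) = n := by omega
    have e2 : J - j = n + 1 := by omega
    rw [e1] at ht
    have fs := f_succ n
    have fp := f_pos n
    rcases best (J := J) (j := j) (by omega) _ _ hw (by rw [abs_lt]; constructor <;> linarith)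
      with h3 | h3
    · rcases abs_cases (t J (j + 1)) with ⟨h4, -⟩ | ⟨h4, -⟩ <;> linarith
    · rw [e2, le_abs] at h3
      rcases abs_cases (t J (j + 1)) with ⟨h4, -⟩ | ⟨h4, -⟩ <;> rcases h3 with h3 | h3 <;> linarith
  · intro h0
    refine ⟨lo, -hiT, by rw [abs_of_nonneg hlo0]; exact hlo1, by rw [abs_neg]; exact hT, ?_⟩
    rw [h0]
    have e : (lo + 0 * f (j + 1) + hiX - lo, - -hiT) = (hiX, hiT) := by
      ext
      · simp
      · simp
    rw [e]
    exact hmem

/-- the ambient group -/
abbrev A (J : ℕ) : Type := ((ℤ × ℤ) ⧸ L J) × ℤ × ℤ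

/-- the projection to the ambient group -/
def pr (J : ℕ) (x y p q : ℤ) : Multiplicative (A J) :=
  Multiplicative.ofAdd ((QuotientAddGroup.mk (x, y) : (ℤ × ℤ) ⧸ L J), p, q)

theorem pr_mul (J : ℕ) (x y p q x' y' p' q' : ℤ) :
    pr J x y p q * pr J x' y' p' q' = pr J (x + x') (y + y') (p + p') (q + q') := rfl

theorem pr_eq (J : ℕ) (x y p q x' y' p' q' : ℤ) :
    pr J x y p q = pr J x' y' p' q' ↔ (x' - x, y' - y) ∈ L J ∧ p = p' ∧ q = q' := by
  simp only [pr, EmbeddingLike.apply_eq_iff_eq, Prod.mk.injEq, QuotientAddGroup.eq]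
  have : -(x, y) + (x', y') = (x' - x, y' - y) := by
    ext <;> simp <;> ring
  rw [this]

theorem pr_zpow (J : ℕ) (x y p q n : ℤ) :
    pr J x y p q ^ n = pr J (n * x) (n * y) (n * p) (n * q) := by
  simp only [pr]
  rw [← ofAdd_zsmul]
  rfl

/-- the four generators -/
def gen (J : ℕ) : Fin 4 → Multiplicative (A J) :=
  ![pr J 1 0 1 0, pr J 0 0 1 0, pr J 0 1 0 1, pr J 0 0 0 1]

theorem mem_gen (J N : ℕ) (s U H : ℤ) (hU0 : 0 ≤ U) (hU : U ≤ N) (hH0 : 0 ≤ H) (hH : H ≤ N) :
    pr J (s + (N - U)) (N - H) (2 * (N - U)) (2 * (N - H)) ∈ Prog (gen J) (fun _ => N) ↔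
      ∃ x h : ℤ, |x| ≤ U ∧ |h| ≤ H ∧ (s - x, -h) ∈ L J := by
  rw [mem_prog]
  constructor
  · rintro ⟨x, hx, e⟩
    rw [Fin.prod_univ_four] at e
    simp only [gen, Matrix.cons_val_zero, Matrix.cons_val_one, Matrix.cons_val, pr_zpow,
      pr_mul] at e
    rw [eq_comm, pr_eq] at e
    obtain ⟨e1, e2, e3⟩ := e
    have h0 := abs_le.mp (hx 0)
    have h1 := abs_le.mp (hx 1)
    have h2 := abs_le.mp (hx 2)
    have h3 := abs_le.mp (hx 3)
    refine ⟨x 0 - (N - U), x 2 - (N - H), by rw [abs_le]; constructor <;> linarith,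
      by rw [abs_le]; constructor <;> linarith, ?_⟩
    convert e1 using 2 <;> ring
  · rintro ⟨x, h, hx, hh, hv⟩
    have h0 := abs_le.mp hx
    have h1 := abs_le.mp hh
    refine ⟨![x + (N - U), N - U - x, h + (N - H), N - H - h], fun i => ?_, ?_⟩
    · fin_cases i <;> simp [abs_le] <;> constructor <;> linarith
    · rw [Fin.prod_univ_four]
      simp only [gen, Matrix.cons_val_zero, Matrix.cons_val_one, Matrix.cons_val, pr_zpow,
        pr_mul]
      rw [eq_comm, pr_eq]
      refine ⟨?_, by ring, by ring⟩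
      convert hv using 2 <;> ring

theorem result (d : ℕ) :
    ∃ (G : Type) (_ : CommGroup G) (a : Fin 4 → G) (N : Fin 4 → ℕ) (Y : Finset G),
      Y.card = d ∧ TransShatters (Prog a N) Y := by
  classical
  set J := 2 ^ d with hJ
  let b : ℕ → ℕ → ℤ := fun i l => if Nat.testBit (l - 1) i then 0 else 1
  have hb : ∀ i l, b i l = 0 ∨ b i l = 1 := fun i l => by
    simp only [b]; split_ifs <;> simp
  let s : ℕ → ℤ := fun i => ∑ l ∈ range (J + 1), b i l * f l
  let y : ℕ → Multiplicative (A J) := fun i => pr J (s i) 0 0 0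
  let N : ℕ := (W J).toNat
  have hN : (N : ℤ) = W J := Int.toNat_of_nonneg (W_nonneg J)
  have main : ∀ j < J, ∃ g : Multiplicative (A J), ∀ i,
      (y i ∈ (fun x => g * x) '' Prog (gen J) (fun _ => N) ↔ Nat.testBit j i = true) := by
    intro j hj
    obtain ⟨n, hn⟩ := Nat.exists_eq_add_of_le (Nat.succ_le_of_lt hj)
    have hn' : J = j + 1 + n := hn
    refine ⟨(pr J (N - W (j + 1)) (N - W n) (2 * (N - W (j + 1))) (2 * (N - W n)))⁻¹, fun i => ?_⟩
    have e : ∀ (g : Multiplicative (A J)) (S : Set (Multiplicative (A J))),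
        y i ∈ (fun x => g⁻¹ * x) '' S ↔ y i * g ∈ S := by
      intro g S
      constructor
      · rintro ⟨x, hx, e⟩
        have : y i * g = x := by rw [← e]; simp [mul_comm]
        rwa [this]
      · intro h
        exact ⟨_, h, by simp [mul_comm]⟩
    rw [e]
    simp only [y, pr_mul, zero_add]
    rw [mem_gen J N (s i) _ _ (W_nonneg _) (by rw [hN]; exact W_mono (by omega)) (W_nonneg _)
      (by rw [hN]; exact W_mono (by omega))]
    have k := key j n (b i) (hb i)
    rw [← hn'] at k
    simp only [s]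
    rw [k]
    simp [b]
  have inj : Set.InjOn y (range d : Finset ℕ) := by
    intro i hi i' _ e
    have hi2 : i < d := by simpa using hi
    obtain ⟨g, hg⟩ := main (2 ^ i) (Nat.pow_lt_pow_right (by norm_num) hi2)
    have h1 := (hg i).2 (by simp)
    rw [e] at h1
    have h2 := (hg i').1 h1
    rw [Nat.testBit_two_pow] at h2
    simpa using h2
  refine ⟨Multiplicative (A J), inferInstance, gen J, fun _ => N, (range d).image y, ?_, ?_⟩
  · rw [Finset.card_image_of_injOn inj, Finset.card_range]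
  · intro B hB
    let S : Finset ℕ := (range d).filter fun i => y i ∈ B
    have hlt : ∑ i ∈ S, 2 ^ i < J := by
      apply Nat.geomSum_lt le_rfl
      intro i hi
      simpa using (Finset.mem_filter.mp hi).1
    obtain ⟨g, hg⟩ := main _ hlt
    have hbit : ∀ i, Nat.testBit (∑ i ∈ S, 2 ^ i) i = true ↔ i ∈ S := by
      intro i
      have := Finset.toFinset_bitIndices_twoPowSum S
      rw [← Nat.mem_bitIndices, ← List.mem_toFinset, this]
    refine ⟨g, Set.ext fun z => ?_⟩
    constructor
    · rintro ⟨h1, h2⟩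
      obtain ⟨i, hi, rfl⟩ := Finset.mem_image.mp (Finset.mem_coe.mp h2)
      have := (hbit i).1 ((hg i).1 h1)
      exact (Finset.mem_filter.mp this).2
    · intro hz
      have h2 := hB hz
      obtain ⟨i, hi, rfl⟩ := Finset.mem_image.mp (Finset.mem_coe.mp h2)
      exact ⟨(hg i).2 ((hbit i).2 (Finset.mem_filter.mpr ⟨hi, hz⟩)), h2⟩

end Pool.Agent.Results.MP_19d06a_co.Unbounded
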